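import Mathlib

/-!
Factorizations of finite groups into two subsets of prescribed sizes: basic facts.
-/

namespace Pool.Agent.Helper10.FG

open scoped Pointwise

/-- `(a, b)` is realised in `G`: there are subsets `A`, `B` of `G` with `|A| = a`, `|B| = b` and
`G = A B`. -/
def Realised (G : Type*) [Group G] (a b : ℕ) : Prop :=
  ∃ A B : Set G, A.ncard = a ∧ B.ncard = b ∧ A * B = Set.univ

theorem ncard_mul_le {G : Type*} [Group G] [Finite G] (A B : Set G) :
    (A * B).ncard ≤ A.ncard * B.ncard := by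
  rw [← Set.image_mul_prod, ← Set.ncard_prod]
  exact Set.ncard_image_le (Set.toFinite _)

/-- Upper bounds for the sizes suffice. -/
theorem realised_of_le {G : Type*} [Group G] [Finite G] (A B : Set G) (a b : ℕ)
    (hab : a * b = Nat.card G) (hA : A.ncard ≤ a) (hB : B.ncard ≤ b) (h : A * B = Set.univ) :
    Realised G a b := by
  have hpos : 0 < Nat.card G := Nat.card_pos
  have h1 : Nat.card G ≤ A.ncard * B.ncard := by
    rw [← Set.ncard_univ, ← h]
    exact ncard_mul_le A B
  have ha : 0 < a := Nat.pos_of_ne_zero (by rintro rfl; simp at hab; omega)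
  have hb : 0 < b := Nat.pos_of_ne_zero (by rintro rfl; simp at hab; omega)
  refine ⟨A, B, ?_, ?_, h⟩
  · by_contra hne
    have h2 : A.ncard < a := lt_of_le_of_ne hA hne
    have h3 : A.ncard * B.ncard < a * b := by
      calc A.ncard * B.ncard ≤ A.ncard * b := Nat.mul_le_mul_left _ hB
        _ < a * b := Nat.mul_lt_mul_of_pos_right h2 hb
    omega
  · by_contra hne
    have h2 : B.ncard < b := lt_of_le_of_ne hB hne
    have h3 : A.ncard * B.ncard < a * b := by
      calc A.ncard * B.ncard ≤ a * B.ncard := Nat.mul_le_mul_right _ hA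
        _ < a * b := Nat.mul_lt_mul_of_pos_left h2 ha
    omega

theorem Realised.symm {G : Type*} [Group G] {a b : ℕ} (h : Realised G a b) : Realised G b a := by
  obtain ⟨A, B, hA, hB, hAB⟩ := h
  refine ⟨B⁻¹, A⁻¹, ?_, ?_, ?_⟩
  · rw [Set.ncard_inv, hB]
  · rw [Set.ncard_inv, hA]
  · rw [← mul_inv_rev, hAB, Set.inv_univ]

/-- A left transversal. -/
theorem exists_left_transversal {G : Type*} [Group G] [Finite G] (H : Subgroup G) :
    ∃ T : Set G, T.ncard ≤ H.index ∧ T * (H : Set G) = Set.univ := by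
  refine ⟨Set.range (fun x : G ⧸ H => Quotient.out x), ?_, ?_⟩
  · rw [← Set.image_univ]
    refine (Set.ncard_image_le (Set.toFinite _)).trans ?_
    rw [Set.ncard_univ]
    exact le_of_eq rfl
  · apply Set.eq_univ_of_forall
    intro g
    refine Set.mem_mul.mpr ⟨Quotient.out (g : G ⧸ H), ⟨_, rfl⟩,
      (Quotient.out (g : G ⧸ H))⁻¹ * g, ?_, by group⟩
    have h1 : ((Quotient.out (g : G ⧸ H) : G) : G ⧸ H) = (g : G ⧸ H) :=
      QuotientGroup.out_eq' _
    exact QuotientGroup.eq.mp h1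

/-- A set closed under left multiplication by a subgroup `K` is `K X` with `|K| |X|` elements. -/
theorem exists_right_transversal {G : Type*} [Group G] [Finite G] (K : Subgroup G) (Y : Set G)
    (hY : ∀ k ∈ K, ∀ y ∈ Y, k * y ∈ Y) :
    ∃ X : Set G, Nat.card K * X.ncard ≤ Y.ncard ∧ (K : Set G) * X = Y := by
  classical
  let r : G → G := fun y => (Quotient.out ((y⁻¹ : G) : G ⧸ K))⁻¹
  have hr : ∀ y : G, ∃ k ∈ K, k * y = r y := by
    intro y
    have h1 : ((Quotient.out ((y⁻¹ : G) : G ⧸ K) : G) : G ⧸ K) = ((y⁻¹ : G) : G ⧸ K) :=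
      QuotientGroup.out_eq' _
    have h2 := QuotientGroup.eq.mp h1
    refine ⟨(Quotient.out ((y⁻¹ : G) : G ⧸ K))⁻¹ * y⁻¹, h2, ?_⟩
    simp [r]
  have hr2 : ∀ y : G, ∀ k ∈ K, r (k * y) = r y := by
    intro y k hk
    have : (((k * y)⁻¹ : G) : G ⧸ K) = ((y⁻¹ : G) : G ⧸ K) := by
      rw [QuotientGroup.eq]
      simpa using hk
    simp only [r, this]
  have hrr : ∀ y, r (r y) = r y := by
    intro y
    obtain ⟨k, hk, h⟩ := hr y
    rw [← h, hr2 y k hk, ← h]
  refine ⟨r '' Y, ?_, ?_⟩
  · have hcard : Nat.card K = (K : Set G).ncard := rfl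
    rw [hcard, ← Set.ncard_prod]
    apply Set.ncard_le_ncard_of_injOn (fun p : G × G => p.1 * p.2)
    · rintro ⟨k, x⟩ ⟨hk, hx⟩
      obtain ⟨y, hy, rfl⟩ := hx
      obtain ⟨k', hk', h⟩ := hr y
      simp only
      rw [← h]
      exact hY k hk _ (hY k' hk' y hy)
    · rintro ⟨k, x⟩ ⟨hk, hx⟩ ⟨k2, x2⟩ ⟨hk2, hx2⟩ heq
      simp only at heq hk hx hk2 hx2
      obtain ⟨y, hy, rfl⟩ := hx
      obtain ⟨y2, hy2, rfl⟩ := hx2
      have e1 : r (k * r y) = r y := by rw [hr2 _ _ hk, hrr]
      have e2 : r (k2 * r y2) = r y2 := by rw [hr2 _ _ hk2, hrr]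
      rw [heq, e2] at e1
      rw [e1] at heq
      have := mul_right_cancel heq
      rw [this, e1]
  · apply Set.Subset.antisymm
    · rintro z ⟨k, hk, x, ⟨y, hy, rfl⟩, rfl⟩
      obtain ⟨k', hk', h⟩ := hr y
      simp only
      rw [← h]
      exact hY k hk _ (hY k' hk' y hy)
    · intro y hy
      obtain ⟨k, hk, h⟩ := hr y
      refine Set.mem_mul.mpr ⟨k⁻¹, K.inv_mem hk, r y, ⟨y, hy, rfl⟩, ?_⟩
      rw [← h]
      group

theorem realised_card_index {G : Type*} [Group G] [Finite G] (H : Subgroup G) :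
    Realised G H.index (Nat.card H) := by
  obtain ⟨T, hT, hTH⟩ := exists_left_transversal H
  exact realised_of_le T H _ _ (by rw [Subgroup.index_mul_card]) hT (le_of_eq rfl) hTH

theorem realised_of_card {G : Type*} [Group G] [Finite G] (H : Subgroup G) {a b : ℕ}
    (hab : a * b = Nat.card G) (hb : Nat.card H = b) : Realised G a b := by
  have h := realised_card_index H
  have h1 := H.index_mul_card
  have hpos : 0 < Nat.card H := Nat.card_pos
  have : H.index = a := by
    rw [← hab, ← hb] at h1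
    exact Nat.eq_of_mul_eq_mul_right hpos h1
  rw [this, hb] at h
  exact h

/-- A factorization of a subgroup extends to the group. -/
theorem Realised.extend {G : Type*} [Group G] [Finite G] (H : Subgroup G) {x y : ℕ}
    (hxy : x * y = Nat.card H) (h : Realised H x y) : Realised G (H.index * x) y := by
  obtain ⟨A, B, hA, hB, hAB⟩ := h
  obtain ⟨T, hT, hTH⟩ := exists_left_transversal H
  refine realised_of_le (T * ((fun m : H => (m : G)) '' A)) ((fun m : H => (m : G)) '' B) _ _
    ?_ ?_ ?_ ?_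
  · rw [mul_assoc, hxy, Subgroup.index_mul_card]
  · refine (ncard_mul_le _ _).trans (Nat.mul_le_mul hT ?_)
    rw [← hA]
    exact Set.ncard_image_le (Set.toFinite _)
  · rw [← hB]
    exact Set.ncard_image_le (Set.toFinite _)
  · apply Set.eq_univ_of_forall
    intro g
    have hg : g ∈ T * (H : Set G) := by rw [hTH]; exact Set.mem_univ _
    obtain ⟨t, ht, m, hm, rfl⟩ := Set.mem_mul.mp hg
    have hm' : (⟨m, hm⟩ : H) ∈ A * B := by rw [hAB]; exact Set.mem_univ _
    obtain ⟨u, hu, v, hv, huv⟩ := Set.mem_mul.mp hm'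
    refine Set.mem_mul.mpr ⟨t * u, Set.mul_mem_mul ht ⟨u, hu, rfl⟩, v, ⟨v, hv, rfl⟩, ?_⟩
    have := congrArg (fun m : H => (m : G)) huv
    simp only [Subgroup.coe_mul] at this
    rw [mul_assoc, this]

end Pool.Agent.Helper10.FG
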