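import Pool.Agent.Helper10.FG.Gallai
import Pool.Agent.Helper10.FG.Basic

/-!
The doubling theorem.
-/

namespace Pool.Agent.Helper10.FG

open scoped Pointwise

/-- The orbital graph on the left cosets of `H` given by `t`. -/
def orbGraph {G : Type*} [Group G] (H : Subgroup G) (t : G) : SimpleGraph (G ⧸ H) where
  Adj x y := x ≠ y ∧ ((∃ g : G, (g : G ⧸ H) = x ∧ ((g * t : G) : G ⧸ H) = y) ∨
    (∃ g : G, (g : G ⧸ H) = y ∧ ((g * t : G) : G ⧸ H) = x))
  symm := ⟨fun _ _ h => ⟨h.1.symm, h.2.symm⟩⟩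
  loopless := ⟨fun _ h => h.1 rfl⟩

theorem orbGraph_connected {G : Type*} [Group G] (H : Subgroup G) (t : G)
    (hgen : H ⊔ Subgroup.zpowers t = ⊤) : (orbGraph H t).Connected := by
  -- the elements `g` such that `[a]` and `[a g]` are always joined
  let Q : Subgroup G :=
    { carrier := {g | ∀ a : G, (orbGraph H t).Reachable (a : G ⧸ H) ((a * g : G) : G ⧸ H)}
      mul_mem' := by
        intro x y hx hy a
        have h1 := hx a
        have h2 := hy (a * x)
        rw [mul_assoc] at h2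
        exact h1.trans h2
      one_mem' := by
        intro a
        rw [mul_one]
      inv_mem' := by
        intro x hx a
        have h1 := hx (a * x⁻¹)
        rw [inv_mul_cancel_right] at h1
        exact h1.symm }
  have hH : H ≤ Q := by
    intro h hh a
    have : ((a * h : G) : G ⧸ H) = (a : G ⧸ H) := by
      rw [eq_comm, QuotientGroup.eq]
      simpa using hh
    rw [this]
  have ht : Subgroup.zpowers t ≤ Q := by
    rw [Subgroup.zpowers_le]
    intro a
    by_cases h : ((a : G ⧸ H)) = ((a * t : G) : G ⧸ H)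
    · rw [← h]
    · exact SimpleGraph.Adj.reachable ⟨h, Or.inl ⟨a, rfl, rfl⟩⟩
  have hQ : Q = ⊤ := by
    rw [eq_top_iff, ← hgen]
    exact sup_le hH ht
  have : Nonempty (G ⧸ H) := ⟨((1 : G) : G ⧸ H)⟩
  refine ⟨?_⟩
  intro x y
  obtain ⟨a, rfl⟩ := QuotientGroup.mk_surjective x
  obtain ⟨b, rfl⟩ := QuotientGroup.mk_surjective y
  have hm : a⁻¹ * b ∈ Q := by rw [hQ]; exact Subgroup.mem_top _
  have := hm a
  rwa [mul_inv_cancel_left] at this

theorem orbGraph_transitive {G : Type*} [Group G] (H : Subgroup G) (t : G) (u v : G ⧸ H) :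
    ∃ φ : (G ⧸ H) ≃ (G ⧸ H),
      (∀ x y, (orbGraph H t).Adj x y ↔ (orbGraph H t).Adj (φ x) (φ y)) ∧ φ u = v := by
  obtain ⟨a, rfl⟩ := QuotientGroup.mk_surjective u
  obtain ⟨b, rfl⟩ := QuotientGroup.mk_surjective v
  have key : ∀ (c : G) (x y : G ⧸ H), (orbGraph H t).Adj x y →
      (orbGraph H t).Adj (c • x) (c • y) := by
    rintro c x y ⟨hne, h⟩
    refine ⟨fun h' => hne (MulAction.injective c h'), ?_⟩
    rcases h with ⟨g, h1, h2⟩ | ⟨g, h1, h2⟩
    · left
      refine ⟨c * g, ?_, ?_⟩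
      · rw [← h1]; rfl
      · rw [← h2, mul_assoc]; rfl
    · right
      refine ⟨c * g, ?_, ?_⟩
      · rw [← h1]; rfl
      · rw [← h2, mul_assoc]; rfl
  refine ⟨MulAction.toPerm (b * a⁻¹), ?_, ?_⟩
  · intro x y
    constructor
    · exact key _ x y
    · intro h
      have := key (b * a⁻¹)⁻¹ _ _ h
      simpa [MulAction.toPerm_apply, smul_smul] using this
  · simp only [MulAction.toPerm_apply]
    change (((b * a⁻¹) * a : G) : G ⧸ H) = (b : G ⧸ H)
    rw [inv_mul_cancel_right]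

/-- The key covering statement when `H` and `t` generate `G`. -/
theorem cover_top {G : Type*} [Group G] [Finite G] (H : Subgroup G) (t : G)
    (hgen : H ⊔ Subgroup.zpowers t = ⊤) (heven : Even H.index) :
    ∃ B : Set G, 2 * B.ncard ≤ H.index ∧ ∀ g : G, ∃ b ∈ B, b⁻¹ * g ∈ H ∨ (b * t)⁻¹ * g ∈ H := by
  classical
  haveI : Fintype (G ⧸ H) := Fintype.ofFinite _
  have hcard : Fintype.card (G ⧸ H) = H.index := by
    rw [← Nat.card_eq_fintype_card]; rfl
  obtain ⟨f, hf1, hf2⟩ := perfect (orbGraph H t) (orbGraph_connected H t hgen)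
    (orbGraph_transitive H t) (by rw [hcard]; exact heven)
  -- an enumeration of the cosets
  obtain ⟨e⟩ : Nonempty ((G ⧸ H) ≃ Fin (Fintype.card (G ⧸ H))) := ⟨Fintype.equivFin _⟩
  have hch : ∀ x : G ⧸ H, ∃ g : G, ((g : G ⧸ H) = x ∧ ((g * t : G) : G ⧸ H) = f x) ∨
      ((g : G ⧸ H) = f x ∧ ((g * t : G) : G ⧸ H) = x) := by
    intro x
    rcases (hf2 x).2 with ⟨g, h1, h2⟩ | ⟨g, h1, h2⟩
    · exact ⟨g, Or.inl ⟨h1, h2⟩⟩
    · exact ⟨g, Or.inr ⟨h1, h2⟩⟩
  choose γ hγ using hch
  let S : Finset (G ⧸ H) := Finset.univ.filter fun x => e x < e (f x)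
  have hS : 2 * S.card ≤ Fintype.card (G ⧸ H) := by
    have h1 : (S.image f).card = S.card :=
      Finset.card_image_of_injective _ (fun a b h => by rw [← hf1 a, h, hf1 b])
    have h2 : Disjoint S (S.image f) := by
      rw [Finset.disjoint_left]
      intro x hx hx'
      simp only [S, Finset.mem_filter, Finset.mem_univ, true_and, Finset.mem_image] at hx hx'
      obtain ⟨y, hy, rfl⟩ := hx'
      rw [hf1] at hx
      exact absurd hx (not_lt.mpr hy.le)
    have h3 := Finset.card_union_of_disjoint h2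
    have h4 := Finset.card_le_univ (S ∪ S.image f)
    omega
  refine ⟨γ '' (S : Set (G ⧸ H)), ?_, ?_⟩
  · have h1 : (γ '' (S : Set (G ⧸ H))).ncard ≤ (S : Set (G ⧸ H)).ncard :=
      Set.ncard_image_le (Set.toFinite _)
    rw [Set.ncard_coe_finset] at h1
    omega
  · intro g
    -- a representative of the pair of `[g]`
    obtain ⟨y, hy, hgy⟩ : ∃ y ∈ S, (g : G ⧸ H) = y ∨ (g : G ⧸ H) = f y := by
      have hne : ((g : G) : G ⧸ H) ≠ f g := (hf2 g).1
      rcases lt_or_gt_of_ne (fun h => hne (e.injective h)) with h | h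
      · exact ⟨(g : G ⧸ H), by simp [S, h], Or.inl rfl⟩
      · exact ⟨f g, by simp [S, hf1, h], Or.inr (hf1 _).symm⟩
    refine ⟨γ y, ⟨y, hy, rfl⟩, ?_⟩
    rcases hγ y with ⟨h1, h2⟩ | ⟨h1, h2⟩ <;> rcases hgy with h3 | h3
    · left; exact QuotientGroup.eq.mp (h1.trans h3.symm)
    · right; exact QuotientGroup.eq.mp (h2.trans h3.symm)
    · right; exact QuotientGroup.eq.mp (h2.trans h3.symm)
    · left; exact QuotientGroup.eq.mp (h1.trans h3.symm)

/-- The key covering statement. -/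
theorem cover {G : Type*} [Group G] [Finite G] (H : Subgroup G) (t : G)
    (heven : Even (H.relIndex (H ⊔ Subgroup.zpowers t))) :
    ∃ B : Set G, 2 * B.ncard ≤ H.index ∧ ∀ g : G, ∃ b ∈ B, b⁻¹ * g ∈ H ∨ (b * t)⁻¹ * g ∈ H := by
  obtain ⟨M, hM⟩ : ∃ M : Subgroup G, M = H ⊔ Subgroup.zpowers t := ⟨_, rfl⟩
  have hHM : H ≤ M := by rw [hM]; exact le_sup_left
  have htM : t ∈ M := by
    rw [hM]; exact (le_sup_right : _ ≤ H ⊔ Subgroup.zpowers t) (Subgroup.mem_zpowers t)
  rw [← hM] at heven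
  obtain ⟨B, hB1, hB2⟩ := cover_top (H.subgroupOf M) (⟨t, htM⟩ : M) (by
    rw [eq_top_iff]
    have hsub : ∀ x : G, x ∈ M → ∀ hx : x ∈ M, (⟨x, hx⟩ : M) ∈
        H.subgroupOf M ⊔ Subgroup.zpowers (⟨t, htM⟩ : M) := by
      have h1 : M ≤ (H.subgroupOf M ⊔ Subgroup.zpowers (⟨t, htM⟩ : M)).map M.subtype := by
        conv_lhs => rw [hM]
        rw [Subgroup.map_sup]
        apply sup_le_sup
        · rw [Subgroup.subgroupOf_map_subtype, inf_eq_left.mpr hHM]
        · rw [Subgroup.zpowers_le]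
          exact ⟨⟨t, htM⟩, Subgroup.mem_zpowers _, rfl⟩
      intro x hx hx'
      obtain ⟨y, hy, hyx⟩ := h1 hx
      have : y = ⟨x, hx'⟩ := Subtype.ext hyx
      rw [← this]
      exact hy
    intro x _
    exact hsub x.1 x.2 x.2) heven
  obtain ⟨T, hT, hTM⟩ := exists_left_transversal M
  refine ⟨T * ((fun m : M => (m : G)) '' B), ?_, ?_⟩
  · have h1 := ncard_mul_le T ((fun m : M => (m : G)) '' B)
    have h2 : ((fun m : M => (m : G)) '' B).ncard ≤ B.ncard := Set.ncard_image_le (Set.toFinite _)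
    have h3 : H.relIndex M * M.index = H.index := Subgroup.relIndex_mul_index hHM
    have h4 : 2 * B.ncard ≤ H.relIndex M := hB1
    calc 2 * (T * ((fun m : M => (m : G)) '' B)).ncard
        ≤ 2 * (T.ncard * ((fun m : M => (m : G)) '' B).ncard) := Nat.mul_le_mul_left _ h1
      _ ≤ 2 * (M.index * B.ncard) := Nat.mul_le_mul_left _ (Nat.mul_le_mul hT h2)
      _ = (2 * B.ncard) * M.index := by ring
      _ ≤ H.relIndex M * M.index := Nat.mul_le_mul_right _ h4
      _ = H.index := h3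
  · intro g
    have hg : g ∈ T * (M : Set G) := by rw [hTM]; exact Set.mem_univ _
    obtain ⟨s, hs, m, hm, rfl⟩ := Set.mem_mul.mp hg
    obtain ⟨b, hb, hbm⟩ := hB2 ⟨m, hm⟩
    refine ⟨s * b, Set.mul_mem_mul hs ⟨b, hb, rfl⟩, ?_⟩
    rcases hbm with h | h
    · left
      have h' : (b : G)⁻¹ * m ∈ H := h
      have : (s * (b : G))⁻¹ * (s * m) = (b : G)⁻¹ * m := by group
      rw [this]; exact h'
    · right
      have h' : ((b : G) * t)⁻¹ * m ∈ H := h
      have : (s * (b : G) * t)⁻¹ * (s * m) = ((b : G) * t)⁻¹ * m := by group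
      rw [this]; exact h'

/-- **Generalised doubling.** -/
theorem doubling {G : Type*} [Group G] [Finite G] (H : Subgroup G) (t : G)
    (heven : Even (H.relIndex (H ⊔ Subgroup.zpowers t))) (K : Subgroup G) (hK : K ≤ H)
    (hKt : ∀ k ∈ K, t⁻¹ * k * t ∈ H) (v w : ℕ) (hvw : v * w = Nat.card K)
    (hr : Realised K v w) :
    Realised G (v * (H.index / 2)) (2 * (Nat.card H / v)) := by
  obtain ⟨B, hB1, hB2⟩ := cover H t heven
  obtain ⟨V, U, hV, hU, hVU⟩ := hr
  have hv0 : 0 < v := Nat.pos_of_ne_zero (by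
    rintro rfl
    have : 0 < Nat.card K := Nat.card_pos
    omega)
  have heven2 : Even H.index := by
    have h3 : H.relIndex (H ⊔ Subgroup.zpowers t) * (H ⊔ Subgroup.zpowers t).index = H.index :=
      Subgroup.relIndex_mul_index le_sup_left
    rw [← h3]
    exact heven.mul_right _
  obtain ⟨X, hX1, hX2⟩ := exists_right_transversal K (H : Set G)
    (fun k hk y hy => H.mul_mem (hK hk) hy)
  obtain ⟨Z, hZ1, hZ2⟩ := exists_right_transversal K ({t} * (H : Set G)) (by
    intro k hk y hy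
    obtain ⟨t', ht', h, hh, rfl⟩ := Set.mem_mul.mp hy
    rw [Set.mem_singleton_iff] at ht'
    subst ht'
    refine Set.mem_mul.mpr ⟨t', rfl, t'⁻¹ * k * t' * h, H.mul_mem (hKt k hk) hh, ?_⟩
    group)
  have hcardt : ({t} * (H : Set G)).ncard = Nat.card H := by
    rw [Set.singleton_mul, Set.ncard_image_of_injective _ (mul_right_injective t)]
    rfl
  rw [hcardt] at hZ1
  have hcardH : (H : Set G).ncard = Nat.card H := rfl
  rw [hcardH] at hX1
  let V' : Set G := (fun m : K => (m : G)) '' V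
  let U' : Set G := (fun m : K => (m : G)) '' U
  have hV' : V'.ncard ≤ v := hV ▸ Set.ncard_image_le (Set.toFinite _)
  have hU' : U'.ncard ≤ w := hU ▸ Set.ncard_image_le (Set.toFinite _)
  have hVU' : ∀ k ∈ K, ∃ x ∈ V', ∃ y ∈ U', x * y = k := by
    intro k hk
    have : (⟨k, hk⟩ : K) ∈ V * U := by rw [hVU]; exact Set.mem_univ _
    obtain ⟨x, hx, y, hy, hxy⟩ := Set.mem_mul.mp this
    refine ⟨x, ⟨x, hx, rfl⟩, y, ⟨y, hy, rfl⟩, ?_⟩
    have := congrArg (fun m : K => (m : G)) hxy
    simpa using this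
  have hKH : Nat.card K ∣ Nat.card H := Subgroup.card_dvd_of_le hK
  obtain ⟨c, hc⟩ := hKH
  have hc' : Nat.card H / v = w * c := by
    rw [hc, ← hvw, mul_assoc]
    exact Nat.mul_div_cancel_left _ hv0
  have hKpos : 0 < Nat.card K := Nat.card_pos
  have hXc : X.ncard ≤ c := by
    rw [hc] at hX1
    exact Nat.le_of_mul_le_mul_left hX1 hKpos
  have hZc : Z.ncard ≤ c := by
    rw [hc] at hZ1
    exact Nat.le_of_mul_le_mul_left hZ1 hKpos
  have hB : B.ncard ≤ H.index / 2 := by omega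
  refine realised_of_le (B * V') (U' * X ∪ U' * Z) _ _ ?_ ?_ ?_ ?_
  · rw [hc']
    have h1 := H.index_mul_card
    rw [hc, ← hvw] at h1
    obtain ⟨i, hi⟩ := heven2
    have : H.index / 2 = i := by omega
    rw [this, ← h1, hi]
    ring
  · calc (B * V').ncard ≤ B.ncard * V'.ncard := ncard_mul_le _ _
      _ ≤ (H.index / 2) * v := Nat.mul_le_mul hB hV'
      _ = v * (H.index / 2) := mul_comm _ _
  · calc (U' * X ∪ U' * Z).ncard ≤ (U' * X).ncard + (U' * Z).ncard := Set.ncard_union_le _ _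
      _ ≤ w * c + w * c := Nat.add_le_add
        ((ncard_mul_le _ _).trans (Nat.mul_le_mul hU' hXc))
        ((ncard_mul_le _ _).trans (Nat.mul_le_mul hU' hZc))
      _ = 2 * (Nat.card H / v) := by rw [hc']; ring
  · apply Set.eq_univ_of_forall
    intro g
    obtain ⟨b, hb, hbg⟩ := hB2 g
    rcases hbg with h | h
    · have h1 : b⁻¹ * g ∈ (K : Set G) * X := by rw [hX2]; exact h
      obtain ⟨k, hk, x, hx, hkx⟩ := Set.mem_mul.mp h1
      obtain ⟨p, hp, q, hq, hpq⟩ := hVU' k hk
      refine Set.mem_mul.mpr ⟨b * p, Set.mul_mem_mul hb hp, q * x,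
        Or.inl (Set.mul_mem_mul hq hx), ?_⟩
      rw [mul_assoc, ← mul_assoc p q x, hpq, hkx]
      group
    · have h1 : b⁻¹ * g ∈ (K : Set G) * Z := by
        rw [hZ2]
        refine Set.mem_mul.mpr ⟨t, rfl, (b * t)⁻¹ * g, h, ?_⟩
        group
      obtain ⟨k, hk, x, hx, hkx⟩ := Set.mem_mul.mp h1
      obtain ⟨p, hp, q, hq, hpq⟩ := hVU' k hk
      refine Set.mem_mul.mpr ⟨b * p, Set.mul_mem_mul hb hp, q * x,
        Or.inr (Set.mul_mem_mul hq hx), ?_⟩
      rw [mul_assoc, ← mul_assoc p q x, hpq, hkx]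
      group

/-- If the index of `H` is even, some `t` is suitable. -/
theorem exists_even {G : Type*} [Group G] [Finite G] (H : Subgroup G) (heven : Even H.index) :
    ∃ t : G, Even (H.relIndex (H ⊔ Subgroup.zpowers t)) := by
  have : Fact (Nat.Prime 2) := ⟨Nat.prime_two⟩
  -- a Sylow 2-subgroup of `H`
  obtain ⟨P⟩ : Nonempty (Sylow 2 H) := inferInstance
  let S : Subgroup G := (P : Subgroup H).map H.subtype
  have hSH : S ≤ H := by
    rintro x ⟨y, _, rfl⟩
    exact y.2
  have hScard : Nat.card S = 2 ^ (Nat.card H).factorization 2 := by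
    rw [← P.card_eq_multiplicity]
    exact Subgroup.card_map_of_injective (Subgroup.subtype_injective H)
  have hdvd : 2 ^ ((Nat.card H).factorization 2 + 1) ∣ Nat.card G := by
    rw [← H.index_mul_card, pow_succ, mul_comm]
    exact Nat.mul_dvd_mul heven.two_dvd (Nat.ordProj_dvd _ _)
  obtain ⟨S', hS', hSS'⟩ := Sylow.exists_subgroup_card_pow_succ hdvd hScard
  have hlt : ¬ S' ≤ H := by
    intro hle
    have h1 : Nat.card S' ∣ Nat.card H := Subgroup.card_dvd_of_le hle
    rw [hS'] at h1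
    have hpos : Nat.card H ≠ 0 := Nat.card_pos.ne'
    have h2 := (Nat.Prime.pow_dvd_iff_le_factorization Nat.prime_two hpos).mp h1
    omega
  obtain ⟨t, ht, htH⟩ := Set.not_subset.mp hlt
  refine ⟨t, ?_⟩
  -- the subgroup generated by `S` and `t` is `S'`
  have hgen : S ⊔ Subgroup.zpowers t = S' := by
    apply le_antisymm
    · exact sup_le hSS' ((Subgroup.zpowers_le).mpr ht)
    · have h1 : S ⊔ Subgroup.zpowers t ≤ S' := sup_le hSS' ((Subgroup.zpowers_le).mpr ht)
      have h2 : Nat.card (S ⊔ Subgroup.zpowers t : Subgroup G) ∣ Nat.card S' :=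
        Subgroup.card_dvd_of_le h1
      rw [hS', (Nat.dvd_prime_pow Nat.prime_two)] at h2
      obtain ⟨j, hj, hj2⟩ := h2
      have h3 : S < S ⊔ Subgroup.zpowers t := by
        refine lt_of_le_of_ne le_sup_left ?_
        intro h
        apply htH
        apply hSH
        rw [h]
        exact (le_sup_right : _ ≤ S ⊔ Subgroup.zpowers t) (Subgroup.mem_zpowers t)
      have h4 : Nat.card S < Nat.card (S ⊔ Subgroup.zpowers t : Subgroup G) :=
        Set.ncard_lt_ncard h3 (Set.toFinite _)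
      rw [hScard, hj2] at h4
      have h5 := (Nat.pow_lt_pow_iff_right (by norm_num : 1 < 2)).mp h4
      have h6 : j = (Nat.card H).factorization 2 + 1 := by omega
      apply le_of_eq
      apply SetLike.coe_injective
      symm
      apply Set.eq_of_subset_of_ncard_le h1 _ (Set.toFinite _)
      change Nat.card S' ≤ Nat.card (S ⊔ Subgroup.zpowers t : Subgroup G)
      rw [hS', hj2, h6]
  have hS'M : S' ≤ H ⊔ Subgroup.zpowers t := by
    rw [← hgen]
    exact sup_le_sup_right hSH _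
  have h1 : Nat.card S' ∣ Nat.card (H ⊔ Subgroup.zpowers t : Subgroup G) :=
    Subgroup.card_dvd_of_le hS'M
  have h2 : Nat.card H * H.relIndex (H ⊔ Subgroup.zpowers t) =
      Nat.card (H ⊔ Subgroup.zpowers t : Subgroup G) := by
    rw [← Subgroup.relIndex_bot_left H, ← Subgroup.relIndex_bot_left (H ⊔ Subgroup.zpowers t)]
    exact Subgroup.relIndex_mul_relIndex _ _ _ bot_le le_sup_left
  rw [hS', ← h2] at h1
  by_contra hodd
  rw [Nat.not_even_iff_odd] at hodd
  have hcop : Nat.Coprime (2 ^ ((Nat.card H).factorization 2 + 1))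
      (H.relIndex (H ⊔ Subgroup.zpowers t)) :=
    Nat.Coprime.pow_left _ ((Nat.coprime_two_left).mpr hodd)
  have h3 := hcop.dvd_of_dvd_mul_right h1
  have hpos : Nat.card H ≠ 0 := Nat.card_pos.ne'
  have h4 := (Nat.Prime.pow_dvd_iff_le_factorization Nat.prime_two hpos).mp h3
  omega

/-- **Doubling.** If `H` has even index then `(2 |H|, |G : H| / 2)` is realised. -/
theorem doubling_simple {G : Type*} [Group G] [Finite G] (H : Subgroup G)
    (heven : Even H.index) : Realised G (H.index / 2) (2 * Nat.card H) := by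
  obtain ⟨t, ht⟩ := exists_even H heven
  have h := doubling H t ht ⊥ bot_le (fun k hk => by
    rw [Subgroup.mem_bot] at hk
    rw [hk]
    simp) 1 1 (by simp) ⟨{1}, {1}, by simp, by simp, by
      apply Set.eq_univ_of_forall
      intro x
      have hx : x = 1 := Subsingleton.elim _ _
      rw [hx]
      exact ⟨1, rfl, 1, rfl, by simp⟩⟩
  simpa using h

end Pool.Agent.Helper10.FG
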