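import Mathlib

/-!
A connected vertex-transitive finite graph with an even number of vertices has a perfect matching
(Gallai's lemma).
-/

namespace Pool.Agent.Helper10.FG

open Finset

variable {V : Type*} [Fintype V] [DecidableEq V]

/-- A matching, as an involution moving each point to itself or to a neighbour. -/
def IsMat (Γ : SimpleGraph V) (f : V → V) : Prop :=
  (∀ v, f (f v) = v) ∧ ∀ v, f v = v ∨ Γ.Adj v (f v)

/-- number of unmatched vertices -/
def unm (f : V → V) : ℕ := (univ.filter fun v => f v = v).card

/-- agreement of two maps -/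
def agr (f g : V → V) : ℕ := (univ.filter fun v => f v = g v).card

/-- maximum matching -/
def IsMax (Γ : SimpleGraph V) (f : V → V) : Prop :=
  IsMat Γ f ∧ ∀ g, IsMat Γ g → unm f ≤ unm g

theorem exists_isMax (Γ : SimpleGraph V) : ∃ f, IsMax Γ f := by
  classical
  have hne : ({f : V → V | IsMat Γ f} : Set (V → V)).Nonempty :=
    ⟨id, fun v => rfl, fun v => Or.inl rfl⟩
  obtain ⟨f, hf, hmin⟩ := Set.exists_min_image {f : V → V | IsMat Γ f} unm (Set.toFinite _) hne
  exact ⟨f, hf, hmin⟩

/-- joining two unmatched adjacent vertices -/
theorem no_adj_unm (Γ : SimpleGraph V) (f : V → V) (hf : IsMax Γ f) (u v : V) (hu : f u = u)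
    (hv : f v = v) : ¬ Γ.Adj u v := by
  intro huv
  have hne : u ≠ v := huv.ne
  let g : V → V := fun x => if x = u then v else if x = v then u else f x
  have hgu : g u = v := by simp [g]
  have hgv : g v = u := by simp [g, hne.symm]
  have hgx : ∀ x, x ≠ u → x ≠ v → g x = f x := fun x h1 h2 => by simp [g, h1, h2]
  have hfx : ∀ x, x ≠ u → x ≠ v → f x ≠ u ∧ f x ≠ v := by
    intro x h1 h2
    constructor
    · intro h
      apply h1
      rw [← hf.1.1 x, h, hu]
    · intro h
      apply h2
      rw [← hf.1.1 x, h, hv]
  have hg : IsMat Γ g := by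
    constructor
    · intro x
      by_cases h1 : x = u
      · rw [h1, hgu, hgv]
      · by_cases h2 : x = v
        · rw [h2, hgv, hgu]
        · rw [hgx x h1 h2, hgx _ (hfx x h1 h2).1 (hfx x h1 h2).2, hf.1.1]
    · intro x
      by_cases h1 : x = u
      · rw [h1, hgu]; exact Or.inr huv
      · by_cases h2 : x = v
        · rw [h2, hgv]; exact Or.inr huv.symm
        · rw [hgx x h1 h2]; exact hf.1.2 x
  have hlt : unm g < unm f := by
    apply Finset.card_lt_card
    refine Finset.ssubset_iff_subset_ne.mpr ⟨?_, ?_⟩
    · intro x hx
      simp only [mem_filter, mem_univ, true_and] at hx ⊢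
      by_cases h1 : x = u
      · rw [h1]; exact hu
      · by_cases h2 : x = v
        · rw [h2]; exact hv
        · rw [← hgx x h1 h2]; exact hx
    · intro h
      have : u ∈ univ.filter fun v => g v = v := by
        rw [h]; simp [hu]
      simp only [mem_filter, mem_univ, true_and, hgu] at this
      exact hne this.symm
  exact absurd (hf.2 g hg) (not_le.mpr hlt)

/-- Gallai's lemma: if every vertex is missed by some maximum matching and the graph is connected,
then no maximum matching misses two vertices. -/
theorem gallai (Γ : SimpleGraph V) (hc : Γ.Connected)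
    (hmiss : ∀ v, ∃ f, IsMax Γ f ∧ f v = v) :
    ∀ n : ℕ, ∀ u v : V, u ≠ v → Γ.dist u v = n → ∀ f, IsMax Γ f → f u = u → f v = v → False := by
  intro n
  induction n using Nat.strong_induction_on with
  | _ n ih =>
    intro u v huv hd f hf hu hv
    have hreach := hc.preconnected u v
    -- the distance is at least two
    have hn0 : n ≠ 0 := by
      intro h
      rw [h] at hd
      exact huv ((hreach.dist_eq_zero_iff).mp hd)
    have hn1 : n ≠ 1 := by
      intro h
      rw [h] at hd
      exact no_adj_unm Γ f hf u v hu hv ((SimpleGraph.dist_eq_one_iff_adj).mp hd)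
    -- a vertex `w` adjacent to `u` on a shortest path
    obtain ⟨p, hp⟩ := hreach.exists_walk_length_eq_dist
    obtain ⟨w, huw, hwv⟩ : ∃ w, Γ.Adj u w ∧ Γ.dist w v < n := by
      cases p with
      | nil => exact absurd rfl huv
      | cons h q =>
        rename_i w
        refine ⟨w, h, ?_⟩
        have h1 := SimpleGraph.dist_le q
        simp only [SimpleGraph.Walk.length_cons] at hp
        omega
    have hwu : w ≠ u := huw.ne.symm
    have hwv' : w ≠ v := by
      rintro rfl
      apply hn1
      rw [← hd]
      exact SimpleGraph.dist_eq_one_iff_adj.mpr huw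
    have huwd : Γ.dist u w = 1 := SimpleGraph.dist_eq_one_iff_adj.mpr huw
    have hfw : f w ≠ w := fun h => ih 1 (by omega) u w hwu.symm huwd f hf hu h
    -- a maximum matching missing `w`, agreeing with `f` as much as possible
    obtain ⟨g, ⟨hg, hgw⟩, hgmax⟩ : ∃ g, (IsMax Γ g ∧ g w = w) ∧
        ∀ g', (IsMax Γ g' ∧ g' w = w) → agr f g' ≤ agr f g := by
      have hne : ({g : V → V | IsMax Γ g ∧ g w = w} : Set (V → V)).Nonempty := hmiss w
      obtain ⟨g, hg, hmax⟩ := Set.exists_max_image {g : V → V | IsMax Γ g ∧ g w = w} (agr f)
        (Set.toFinite _) hne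
      exact ⟨g, hg, hmax⟩
    have hgu : g u ≠ u := fun h => ih 1 (by omega) u w hwu.symm huwd g hg h hgw
    have hgv : g v ≠ v := fun h => ih (Γ.dist w v) hwv w v hwv' rfl g hg hgw h
    -- counting
    have hcard : unm f = unm g := le_antisymm (hf.2 g hg.1) (hg.2 f hf.1)
    have hx : ∃ x, g x = x ∧ f x ≠ x ∧ x ≠ w := by
      by_contra hcon
      push Not at hcon
      have hsub : (univ.filter fun x => g x = x) ⊆
          insert w ((univ.filter fun x => f x = x) \ {u, v}) := by
        intro x hx
        simp only [mem_filter, mem_univ, true_and] at hx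
        simp only [mem_insert, mem_sdiff, mem_filter, mem_univ, true_and, mem_singleton, not_or]
        by_cases hxf : f x = x
        · right
          refine ⟨hxf, ?_, ?_⟩
          · rintro rfl; exact hgu hx
          · rintro rfl; exact hgv hx
        · left; exact hcon x hx hxf
      have h1 := card_le_card hsub
      have h2 := card_insert_le w ((univ.filter fun x => f x = x) \ {u, v})
      have h3 : ({u, v} : Finset V) ⊆ univ.filter fun x => f x = x := by
        intro x hx
        simp only [mem_insert, mem_singleton] at hx
        simp only [mem_filter, mem_univ, true_and]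
        rcases hx with rfl | rfl
        · exact hu
        · exact hv
      have h4 := card_sdiff_add_card_eq_card h3
      have h5 : ({u, v} : Finset V).card = 2 := card_pair huv
      unfold unm at hcard
      omega
    obtain ⟨x, hgx, hfx, hxw⟩ := hx
    obtain ⟨y, hy⟩ : ∃ y, y = f x := ⟨_, rfl⟩
    have hyx : y ≠ x := by rw [hy]; exact hfx
    have hfy : f y = x := by rw [hy, hf.1.1]
    have hadj : Γ.Adj x y := by
      rcases hf.1.2 x with h | h
      · exact absurd h hfx
      · rw [hy]; exact h
    have hgy : g y ≠ y := fun h => no_adj_unm Γ g hg x y hgx h hadj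
    obtain ⟨z, hz⟩ : ∃ z, z = g y := ⟨_, rfl⟩
    have hzy : z ≠ y := by rw [hz]; exact hgy
    have hgz : g z = y := by rw [hz, hg.1.1]
    have hzx : z ≠ x := by
      rintro rfl
      exact hyx (by rw [← hgz, hgx])
    have hwy : w ≠ y := by rintro rfl; exact hgy hgw
    have hwz : w ≠ z := by
      rintro rfl
      exact hzy (by rw [← hgz, hgw])
    -- the modified matching
    let g' : V → V := fun t => if t = x then y else if t = y then x else if t = z then z else g t
    have g'x : g' x = y := by simp [g']
    have g'y : g' y = x := by simp [g', hyx]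
    have g'z : g' z = z := by simp [g', hzx, hzy]
    have g't : ∀ t, t ≠ x → t ≠ y → t ≠ z → g' t = g t := fun t h1 h2 h3 => by
      simp [g', h1, h2, h3]
    have gt : ∀ t, t ≠ x → t ≠ y → t ≠ z → g t ≠ x ∧ g t ≠ y ∧ g t ≠ z := by
      intro t h1 h2 h3
      refine ⟨?_, ?_, ?_⟩
      · intro h; apply h1; rw [← hg.1.1 t, h, hgx]
      · intro h; apply h3; rw [← hg.1.1 t, h, hz]
      · intro h; apply h2; rw [← hg.1.1 t, h, hgz]
    have hg'mat : IsMat Γ g' := by
      constructor
      · intro t
        by_cases h1 : t = x
        · rw [h1, g'x, g'y]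
        by_cases h2 : t = y
        · rw [h2, g'y, g'x]
        by_cases h3 : t = z
        · rw [h3, g'z, g'z]
        obtain ⟨k1, k2, k3⟩ := gt t h1 h2 h3
        rw [g't t h1 h2 h3, g't _ k1 k2 k3, hg.1.1]
      · intro t
        by_cases h1 : t = x
        · rw [h1, g'x]; exact Or.inr hadj
        by_cases h2 : t = y
        · rw [h2, g'y]; exact Or.inr hadj.symm
        by_cases h3 : t = z
        · rw [h3]; exact Or.inl g'z
        rw [g't t h1 h2 h3]
        exact hg.1.2 t
    have hunm : unm g' ≤ unm g := by
      have hsub : (univ.filter fun t => g' t = t) ⊆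
          insert z ((univ.filter fun t => g t = t) \ {x}) := by
        intro t ht
        simp only [mem_filter, mem_univ, true_and] at ht
        simp only [mem_insert, mem_sdiff, mem_filter, mem_univ, true_and, mem_singleton]
        by_cases h3 : t = z
        · exact Or.inl h3
        right
        have h1 : t ≠ x := by
          rintro rfl; exact hyx (by rw [← g'x, ht])
        have h2 : t ≠ y := by
          rintro rfl; exact hyx (by rw [← ht, g'y])
        refine ⟨?_, h1⟩
        rw [← g't t h1 h2 h3]; exact ht
      have h1 := card_le_card hsub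
      have h2 := card_insert_le z ((univ.filter fun t => g t = t) \ {x})
      have h3 : ({x} : Finset V) ⊆ univ.filter fun t => g t = t := by
        intro t ht
        simp only [mem_singleton] at ht
        simp only [mem_filter, mem_univ, true_and, ht, hgx]
      have h4 := card_sdiff_add_card_eq_card h3
      rw [card_singleton] at h4
      unfold unm
      omega
    have hg'max : IsMax Γ g' := ⟨hg'mat, fun k hk => hunm.trans (hg.2 k hk)⟩
    have hg'w : g' w = w := by rw [g't w hxw.symm hwy hwz, hgw]
    have hlt : agr f g < agr f g' := by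
      apply card_lt_card
      refine Finset.ssubset_iff_subset_ne.mpr ⟨?_, ?_⟩
      · intro t ht
        simp only [mem_filter, mem_univ, true_and] at ht ⊢
        by_cases h1 : t = x
        · rw [h1, g'x, hy]
        by_cases h2 : t = y
        · rw [h2, g'y, hfy]
        by_cases h3 : t = z
        · exfalso
          apply hzx
          rw [h3, hgz] at ht
          rw [← hf.1.1 z, ht, hfy]
        rw [g't t h1 h2 h3, ht]
      · intro h
        have : x ∈ univ.filter fun v => f v = g v := by
          rw [h]; simp [g'x, hy]
        simp only [mem_filter, mem_univ, true_and, hgx] at this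
        exact hfx this
    exact absurd (hgmax g' ⟨hg'max, hg'w⟩) (not_le.mpr hlt)

/-- A matching has as many unmatched vertices as vertices modulo two. -/
theorem unm_parity (f : V → V) (hf : ∀ v, f (f v) = v) : Fintype.card V % 2 = unm f % 2 := by
  have h := Equiv.Perm.card_fixedPoints_modEq (p := 2) (n := 1) (f := (f : Function.End V)) (by
      funext v
      exact hf v)
  unfold unm
  have h2 : Fintype.card (Function.fixedPoints f) =
      (univ.filter fun v => f v = v).card := by
    rw [← Fintype.card_subtype]
    apply Fintype.card_congr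
    exact Equiv.refl _
  rw [← h2]
  exact h

/-- A connected vertex-transitive graph with an even number of vertices has a perfect matching. -/
theorem perfect (Γ : SimpleGraph V) (hc : Γ.Connected)
    (htr : ∀ u v : V, ∃ φ : V ≃ V, (∀ x y, Γ.Adj x y ↔ Γ.Adj (φ x) (φ y)) ∧ φ u = v)
    (heven : Even (Fintype.card V)) :
    ∃ f : V → V, (∀ v, f (f v) = v) ∧ ∀ v, Γ.Adj v (f v) := by
  obtain ⟨f, hf⟩ := exists_isMax Γ
  by_cases h0 : ∃ u, f u = u
  · exfalso
    obtain ⟨u, hu⟩ := h0
    have hmiss : ∀ v, ∃ g, IsMax Γ g ∧ g v = v := by
      intro v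
      obtain ⟨φ, hφ, hφu⟩ := htr u v
      have hunm : unm (fun x => φ (f (φ.symm x))) = unm f := by
        unfold unm
        apply Finset.card_bij (fun x _ => φ.symm x)
        · intro x hx
          simp only [mem_filter, mem_univ, true_and] at hx ⊢
          rw [Equiv.eq_symm_apply]
          exact hx
        · intro x _ y _ h
          exact φ.symm.injective h
        · intro x hx
          simp only [mem_filter, mem_univ, true_and] at hx
          refine ⟨φ x, ?_, by simp⟩
          simp [hx]
      refine ⟨fun x => φ (f (φ.symm x)), ⟨⟨?_, ?_⟩, ?_⟩, ?_⟩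
      · intro x
        simp [hf.1.1]
      · intro x
        rcases hf.1.2 (φ.symm x) with h | h
        · left
          simp [h]
        · right
          have := (hφ _ _).mp h
          simpa using this
      · intro g hg
        rw [hunm]
        exact hf.2 g hg
      · rw [← hφu]
        simp [hu]
    have hone : unm f = 1 := by
      unfold unm
      rw [Finset.card_eq_one]
      refine ⟨u, ?_⟩
      ext x
      simp only [mem_filter, mem_univ, true_and, mem_singleton]
      constructor
      · intro hx
        by_contra hxu
        exact gallai Γ hc hmiss _ x u hxu rfl f hf hx hu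
      · rintro rfl
        exact hu
    have hpar := unm_parity f hf.1.1
    rw [hone] at hpar
    rw [Nat.even_iff] at heven
    omega
  · push Not at h0
    refine ⟨f, hf.1.1, fun v => ?_⟩
    rcases hf.1.2 v with h | h
    · exact absurd h (h0 v)
    · exact h

end Pool.Agent.Helper10.FG
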