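import Pool.Agent.Helper10.FG.Doubling

/-!
Groups with a suitable subgroup of index `2 p`.
-/

namespace Pool.Agent.Helper10.FG

/-- One direction: if `2 p` does not divide `a` and `b`, and `p ∣ a`, then `b` is twice the order of
a subgroup. -/
theorem index_two_p_aux {G : Type*} [Group G] [Finite G] (H : Subgroup G) (p : ℕ) (hp : p.Prime)
    (hi : H.index = 2 * p)
    (hodd : ∀ d, d ∣ Nat.card H → Odd (Nat.card H / d) → ∃ K : Subgroup G, Nat.card K = d)
    (a b : ℕ) (hab : a * b = Nat.card G) (ha : ¬ 2 * p ∣ a) (hpa : p ∣ a) :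
    Realised G a b := by
  have hcard := H.index_mul_card
  rw [hi, ← hab] at hcard
  have hHpos : 0 < Nat.card H := Nat.card_pos
  -- `a` is `p a'` and `a'` is odd
  obtain ⟨a', rfl⟩ := hpa
  have ha' : ¬ 2 ∣ a' := by
    rintro ⟨c, rfl⟩
    exact ha ⟨c, by ring⟩
  have hb2 : 2 ∣ b := by
    have h1 : 2 * Nat.card H = a' * b := by
      have : p * (2 * Nat.card H) = p * (a' * b) := by
        rw [← mul_assoc, ← mul_assoc, ← hcard]; ring
      exact Nat.eq_of_mul_eq_mul_left hp.pos this
    have h2 : 2 ∣ a' * b := ⟨_, h1.symm⟩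
    exact (Nat.prime_two.dvd_mul.mp h2).resolve_left ha'
  obtain ⟨b', rfl⟩ := hb2
  have h3 : Nat.card H = a' * b' := by
    have : (2 * p) * Nat.card H = (2 * p) * (a' * b') := by
      rw [hcard]; ring
    exact Nat.eq_of_mul_eq_mul_left (by have := hp.pos; omega) this
  have hb'pos : 0 < b' := by
    rcases Nat.eq_zero_or_pos b' with h | h
    · rw [h] at h3
      omega
    · exact h
  obtain ⟨K, hK⟩ := hodd b' ⟨a', by rw [h3]; ring⟩ (by
    rw [h3, Nat.mul_div_cancel _ hb'pos]
    rw [← Nat.not_even_iff_odd]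
    exact fun h => ha' h.two_dvd)
  have hKi : K.index = 2 * (p * a') := by
    have h4 := K.index_mul_card
    rw [hK, ← hab] at h4
    have : K.index * b' = (2 * (p * a')) * b' := by rw [h4]; ring
    exact Nat.eq_of_mul_eq_mul_right hb'pos this
  have h5 := doubling_simple K (by rw [hKi]; exact even_two_mul _)
  rw [hKi, hK, Nat.mul_div_cancel_left _ (by norm_num)] at h5
  exact h5

/-- If `G` has a subgroup `H` of index `2 p`, `p` prime, such that all factorizations of `|H|` are
realised in `H` and every odd divisor of `|H|` is the index of a subgroup of `H`, then all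
factorizations of `|G|` are realised. -/
theorem index_two_p {G : Type*} [Group G] [Finite G] (H : Subgroup G) (p : ℕ) (hp : p.Prime)
    (hi : H.index = 2 * p)
    (hreal : ∀ x y : ℕ, x * y = Nat.card H → Realised H x y)
    (hodd : ∀ d, d ∣ Nat.card H → Odd (Nat.card H / d) → ∃ K : Subgroup G, Nat.card K = d)
    (a b : ℕ) (hab : a * b = Nat.card G) : Realised G a b := by
  have hcard := H.index_mul_card
  rw [hi, ← hab] at hcard
  have hppos := hp.pos
  by_cases ha : 2 * p ∣ a
  · obtain ⟨c, rfl⟩ := ha
    have h1 : c * b = Nat.card H := by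
      have : (2 * p) * Nat.card H = (2 * p) * (c * b) := by rw [hcard]; ring
      exact (Nat.eq_of_mul_eq_mul_left (by omega) this).symm
    have h2 := (hreal c b h1).extend H h1
    rw [hi] at h2
    exact h2
  by_cases hb : 2 * p ∣ b
  · obtain ⟨c, rfl⟩ := hb
    have h1 : c * a = Nat.card H := by
      have : (2 * p) * Nat.card H = (2 * p) * (c * a) := by rw [hcard]; ring
      exact (Nat.eq_of_mul_eq_mul_left (by omega) this).symm
    have h2 := (hreal c a h1).extend H h1
    rw [hi] at h2
    exact h2.symm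
  have hpab : p ∣ a * b := ⟨2 * Nat.card H, by rw [← hcard]; ring⟩
  rcases (hp.dvd_mul).mp hpab with h | h
  · exact index_two_p_aux H p hp hi hodd a b hab ha h
  · exact (index_two_p_aux H p hp hi hodd b a (by rw [mul_comm]; exact hab) hb h).symm

/-- The version with subgroups of all orders. -/
theorem index_two_p_clt {G : Type*} [Group G] [Finite G] (H : Subgroup G) (p : ℕ) (hp : p.Prime)
    (hi : H.index = 2 * p)
    (hclt : ∀ d, d ∣ Nat.card H → ∃ K : Subgroup H, Nat.card K = d)
    (a b : ℕ) (hab : a * b = Nat.card G) : Realised G a b := by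
  refine index_two_p H p hp hi ?_ ?_ a b hab
  · intro x y hxy
    obtain ⟨K, hK⟩ := hclt y ⟨x, by rw [← hxy]; ring⟩
    exact realised_of_card K hxy hK
  · intro d hd _
    obtain ⟨K, hK⟩ := hclt d hd
    refine ⟨K.map H.subtype, ?_⟩
    rw [← hK]
    exact Subgroup.card_map_of_injective (Subgroup.subtype_injective H)

end Pool.Agent.Helper10.FG
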