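import Pool.Agent.Helper45.FG.St

/-!
# Project FG (MP_7221b2_al), module FIN: dimensions are algebraic integers and at least one
-/

set_option autoImplicit false

namespace Pool.Agent.Helper10.FG

open Pool.Agent.Helper45.FG
open scoped BigOperators

private lemma dim_one {I : Type} [Fintype I] (R : FusionRing I) (d : I → ℝ) (h : IsDim R d) :
    d R.one = 1 := by
  classical
  have h1 := h.mul R.one R.one
  have h2 : ∑ k, (R.N R.one R.one k : ℝ) * d k = d R.one := by
    rw [Finset.sum_eq_single R.one]
    · rw [R.one_mul_self]; simp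
    · intro k _ hk
      rw [R.one_mul_ne _ _ hk]; simp
    · intro hn
      exact absurd (Finset.mem_univ _) hn
  rw [h2] at h1
  have h3 := h.pos R.one
  have h4 : d R.one * (d R.one - 1) = 0 := by linarith
  rcases mul_eq_zero.1 h4 with h5 | h5
  · exact absurd h5 h3.ne'
  · linarith

private lemma dim_int {I : Type} [Fintype I] (R : FusionRing I) (d : I → ℝ) (h : IsDim R d)
    (i : I) : IsIntegral ℤ (d i) := by
  classical
  have hne : Submodule.span ℤ (Set.range d) ≠ ⊥ := by
    intro hb
    have h1 : d R.one ∈ Submodule.span ℤ (Set.range d) := Submodule.subset_span ⟨R.one, rfl⟩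
    rw [hb, Submodule.mem_bot] at h1
    exact (h.pos R.one).ne' h1
  have hfg : (Submodule.span ℤ (Set.range d)).FG := Submodule.fg_span (Set.finite_range d)
  refine isIntegral_of_smul_mem_submodule (Submodule.span ℤ (Set.range d)) hne hfg (d i) ?_
  intro x hx
  induction hx using Submodule.span_induction with
  | mem x hx =>
    obtain ⟨j, rfl⟩ := hx
    rw [smul_eq_mul, h.mul i j]
    refine Submodule.sum_mem _ fun k _ => ?_
    have h2 : (R.N i j k : ℝ) * d k = ((R.N i j k : ℕ) : ℤ) • d k := by
      rw [zsmul_eq_mul]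
      push_cast
      rfl
    rw [h2]
    exact Submodule.smul_mem _ _ (Submodule.subset_span ⟨k, rfl⟩)
  | zero => rw [smul_zero]; exact Submodule.zero_mem _
  | add x y _ _ hx hy => rw [smul_add]; exact Submodule.add_mem _ hx hy
  | smul a x _ hx =>
    rw [smul_comm]
    exact Submodule.smul_mem _ _ hx

private lemma dual_mul' {I : Type} [Fintype I] (R : FusionRing I) (d : I → ℝ) (h : IsDim R d)
    (i j : I) : d (R.dual i) * d (R.dual j) = ∑ k, (R.N i j k : ℝ) * d (R.dual k) := by
  have h1 := h.mul (R.dual j) (R.dual i)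
  have h2 : ∑ k, (R.N (R.dual j) (R.dual i) k : ℝ) * d k =
      ∑ k, (R.N (R.dual j) (R.dual i) (R.dual k) : ℝ) * d (R.dual k) := by
    let s : I ≃ I := ⟨R.dual, R.dual, R.dual_dual, R.dual_dual⟩
    exact (Equiv.sum_comp s (fun k => (R.N (R.dual j) (R.dual i) k : ℝ) * d k)).symm
  rw [mul_comm, h1, h2]
  refine Finset.sum_congr rfl fun k _ => ?_
  rw [R.dual_mul]

private lemma dual_le {I : Type} [Fintype I] (R : FusionRing I) (d : I → ℝ) (h : IsDim R d)
    (i : I) : d (R.dual i) ≤ d i := by
  classical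
  obtain ⟨j, _, hj⟩ := Finset.exists_max_image Finset.univ (fun j => d (R.dual j) / d j)
    ⟨R.one, Finset.mem_univ _⟩
  have hj' : ∀ k, d (R.dual k) ≤ d (R.dual j) / d j * d k := by
    intro k
    have h1 := hj k (Finset.mem_univ _)
    rwa [div_le_iff₀ (h.pos k)] at h1
  have h2 : d (R.dual i) * d (R.dual j) ≤ d i * d (R.dual j) := by
    calc d (R.dual i) * d (R.dual j) = ∑ k, (R.N i j k : ℝ) * d (R.dual k) := dual_mul' R d h i j
      _ ≤ ∑ k, (R.N i j k : ℝ) * (d (R.dual j) / d j * d k) :=
        Finset.sum_le_sum fun k _ => mul_le_mul_of_nonneg_left (hj' k) (Nat.cast_nonneg _)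
      _ = d (R.dual j) / d j * ∑ k, (R.N i j k : ℝ) * d k := by
        rw [Finset.mul_sum]
        exact Finset.sum_congr rfl fun k _ => by ring
      _ = d (R.dual j) / d j * (d i * d j) := by rw [h.mul i j]
      _ = d i * d (R.dual j) := by
        have := (h.pos j).ne'
        field_simp
  exact le_of_mul_le_mul_right h2 (h.pos _)

theorem hFIN : StFIN := by
  intro I _ R d h
  have h1 := dim_one R d h
  refine ⟨h1, dim_int R d h, ?_⟩
  intro i
  have h2 : 1 ≤ d i * d (R.dual i) := by
    rw [h.mul i (R.dual i)]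
    have h3 : (R.N i (R.dual i) R.one : ℝ) * d R.one ≤
        ∑ k, (R.N i (R.dual i) k : ℝ) * d k :=
      Finset.single_le_sum (f := fun k => (R.N i (R.dual i) k : ℝ) * d k)
        (fun k _ => mul_nonneg (Nat.cast_nonneg _) (h.pos k).le) (Finset.mem_univ _)
    rw [R.dual_self, h1] at h3
    simpa using h3
  have h3 := dual_le R d h i
  have h4 := h.pos i
  nlinarith

end Pool.Agent.Helper10.FG
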