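import Pool.Agent.Helper45.FG.St4

/-!
# Project FG (MP_7221b2_al), module NFH: candidates near the fixed space of a subgroup
(adapted from `Pool/Agent/Helper77/FG/M_NFE.lean`)
-/

set_option autoImplicit false

namespace Pool.Agent.Helper10.FG

open Pool.Agent.Helper45.FG

private noncomputable def sg (w : ℝ) : ℝ := if 0 ≤ w then 1 else -1

private theorem sg_one (w l R : ℝ) (h : |l - sg w * R| ≤ R) :
    0 ≤ w * l ∧ w * l ≤ 2 * R * |w| := by
  unfold sg at h
  rw [abs_le] at h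
  split_ifs at h with hw
  · rw [abs_of_nonneg hw]
    constructor <;> nlinarith
  · push Not at hw
    rw [abs_of_neg hw]
    constructor <;> nlinarith

private theorem sg_two (w l R : ℝ) (h : |l - -(sg w) * (2 * R)| ≤ R) :
    -(3 * R * |w|) ≤ w * l ∧ w * l ≤ -(R * |w|) := by
  unfold sg at h
  rw [abs_le] at h
  split_ifs at h with hw
  · rw [abs_of_nonneg hw]
    constructor <;> nlinarith
  · push Not at hw
    rw [abs_of_neg hw]
    constructor <;> nlinarith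

theorem hNFH (hCOC : StCOC) (hPIH : StPIH) : StNFH := by
  classical
  intro K hfd hgal H hH
  obtain ⟨R0, hR0, hcoc⟩ := hCOC K hfd hgal
  obtain ⟨C0, hC0, hpih⟩ := hPIH K hfd hgal H hH
  set n := H.index - 1 with hn
  have hR : 0 < R0 := by linarith
  have hC : 0 < C0 := by linarith
  have hP : 0 < (3 * R0) ^ n := by positivity
  have hQ : 0 < 5 * R0 * C0 * (3 * R0) ^ n := by positivity
  refine ⟨3 * R0 * C0 + 5 * R0 * C0 * (3 * R0) ^ n, by nlinarith, fun B hB => ?_⟩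
  have hBpos : 1 ≤ B := by nlinarith
  set W := B / (3 * R0) with hW
  have hWB : 3 * R0 * W = B := by rw [hW]; field_simp
  have hWC : C0 ≤ W := by
    rw [hW, le_div_iff₀ (by positivity)]
    linarith
  have hWpos : 0 < W := by linarith
  obtain ⟨w, hwi, hw0, hwH, hw1, hwt⟩ := hpih W hWC
  have htw : ∀ t : K ≃ₐ[ℚ] K, 0 < |((t w : K) : ℝ)| := by
    intro t
    rw [abs_pos]
    intro h
    have h1 : t w = 0 := by exact_mod_cast h
    exact hw0 (by simpa using h1)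
  obtain ⟨lam, hli, hl⟩ := hcoc (fun t => if t = 1 then sg (w : ℝ) * R0 else
    -(sg ((t w : K) : ℝ)) * (2 * R0))
  -- the element x
  have hx1 : 0 ≤ (w : ℝ) * (lam : ℝ) ∧ (w : ℝ) * (lam : ℝ) ≤ 2 * R0 * |(w : ℝ)| := by
    apply sg_one
    have := hl 1
    simpa using this
  have hxt : ∀ t : K ≃ₐ[ℚ] K, t ≠ 1 →
      -(3 * R0 * |((t w : K) : ℝ)|) ≤ ((t w : K) : ℝ) * ((t lam : K) : ℝ) ∧
        ((t w : K) : ℝ) * ((t lam : K) : ℝ) ≤ -(R0 * |((t w : K) : ℝ)|) := by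
    intro t ht
    apply sg_two
    have := hl t
    simpa [ht] using this
  set x : K := w * lam with hxdef
  have hx : (x : ℝ) = (w : ℝ) * (lam : ℝ) := by rw [hxdef]; push_cast; ring
  have htx : ∀ t : K ≃ₐ[ℚ] K, ((t x : K) : ℝ) = ((t w : K) : ℝ) * ((t lam : K) : ℝ) := by
    intro t; rw [hxdef, map_mul]; push_cast; ring
  have hxi : IsIntegral ℤ x := hwi.mul hli
  set j : ℤ := ⌈B - (x : ℝ)⌉ with hj
  have hj1 : B - (x : ℝ) ≤ j := Int.le_ceil _
  have hj2 : (j : ℝ) < B - (x : ℝ) + 1 := Int.ceil_lt_add_one _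
  set β : K := x + (j : K) with hβ
  have hβr : (β : ℝ) = (x : ℝ) + (j : ℝ) := by rw [hβ]; push_cast; ring
  have htβ : ∀ t : K ≃ₐ[ℚ] K, ((t β : K) : ℝ) = ((t x : K) : ℝ) + (j : ℝ) := by
    intro t; rw [hβ, map_add, map_intCast]; push_cast; ring
  have hβi : IsIntegral ℤ β :=
    hxi.add (by simpa using (isIntegral_algebraMap (R := ℤ) (A := K) (x := j)))
  have hβB : B ≤ (β : ℝ) := by rw [hβr]; linarith
  have hw1' : |(w : ℝ)| ≤ W := by simpa using hwt 1
  have hdiff : ∀ t : K ≃ₐ[ℚ] K, t ≠ 1 → 0 < (x : ℝ) - ((t x : K) : ℝ) ∧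
      (x : ℝ) - ((t x : K) : ℝ) ≤ 2 * R0 * |(w : ℝ)| + 3 * R0 * |((t w : K) : ℝ)| := by
    intro t ht
    have h1 := hxt t ht
    have h2 := htw t
    rw [htx, hx]
    have h3 : 0 < R0 * |((t w : K) : ℝ)| := by positivity
    constructor <;> linarith [hx1.1, hx1.2]
  refine ⟨β, ⟨hβi, by linarith, fun t => ?_⟩, hβB, by rw [hβr]; linarith, ?_, ?_⟩
  · by_cases ht : t = 1
    · subst ht
      rw [AlgEquiv.one_apply, abs_of_nonneg (by linarith)]
    · obtain ⟨h1, h2⟩ := hdiff t ht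
      have h3 := hwt t
      have h4 : 2 * R0 * |(w : ℝ)| ≤ 2 * R0 * W := by gcongr
      have h5 : 3 * R0 * |((t w : K) : ℝ)| ≤ 3 * R0 * W := by gcongr
      have h6 : 0 < R0 * W := by positivity
      rw [abs_le, htβ, hβr]
      have h7 : B ≤ (x : ℝ) + (j : ℝ) := by linarith
      constructor <;> nlinarith
  · intro t ht
    have := (hdiff t ht).1
    rw [htβ, hβr]
    linarith
  · intro t htH
    by_cases ht : t = 1
    · subst ht
      rw [AlgEquiv.one_apply, sub_self, zero_mul]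
      positivity
    obtain ⟨h1, h2⟩ := hdiff t ht
    rw [hwH t htH] at h2
    rw [htβ, hβr]
    have e : (x : ℝ) + (j : ℝ) - (((t x : K) : ℝ) + (j : ℝ)) = (x : ℝ) - ((t x : K) : ℝ) := by ring
    rw [e]
    have hB' : B ^ n = (3 * R0) ^ n * W ^ n := by rw [← mul_pow, hWB]
    rw [hB']
    have hWn : 0 < W ^ n := by positivity
    have h3 : (x : ℝ) - ((t x : K) : ℝ) ≤ 5 * R0 * |(w : ℝ)| := by linarith
    have h6 : ((x : ℝ) - ((t x : K) : ℝ)) * W ^ n ≤ 5 * R0 * C0 := by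
      calc ((x : ℝ) - ((t x : K) : ℝ)) * W ^ n ≤ (5 * R0 * |(w : ℝ)|) * W ^ n := by gcongr
        _ = 5 * R0 * (|(w : ℝ)| * W ^ n) := by ring
        _ ≤ 5 * R0 * C0 := by gcongr
    have h10 : ((x : ℝ) - ((t x : K) : ℝ)) * ((3 * R0) ^ n * W ^ n) =
        (((x : ℝ) - ((t x : K) : ℝ)) * W ^ n) * (3 * R0) ^ n := by ring
    rw [h10]
    have h11 : (((x : ℝ) - ((t x : K) : ℝ)) * W ^ n) * (3 * R0) ^ n ≤
        (5 * R0 * C0) * (3 * R0) ^ n := by
      gcongr
    have h12 : 0 < 3 * R0 * C0 := by positivity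
    linarith

end Pool.Agent.Helper10.FG
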