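import Pool.Agent.Helper10.FG.IndexTwoP

/-!
`PSL(2, q)` for primes `q` such that `(q + 1) / 2` is prime.
-/

namespace Pool.Agent.Helper10.FG

open Matrix

variable (q : ℕ) [hq : Fact q.Prime]

theorem mul_apply2 (a b : SpecialLinearGroup (Fin 2) (ZMod q)) (i j : Fin 2) :
    (a * b) i j = a i 0 * b 0 j + a i 1 * b 1 j := by
  have h : ((a * b : SpecialLinearGroup (Fin 2) (ZMod q)) : Matrix (Fin 2) (Fin 2) (ZMod q)) i j =
      ((a : Matrix (Fin 2) (Fin 2) (ZMod q)) * (b : Matrix (Fin 2) (Fin 2) (ZMod q))) i j := rfl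
  rw [Matrix.mul_apply, Fin.sum_univ_two] at h
  exact h

theorem inv_00 (a : SpecialLinearGroup (Fin 2) (ZMod q)) : (a⁻¹) 0 0 = a 1 1 := by
  rw [SpecialLinearGroup.SL2_inv_expl]; rfl

theorem inv_10 (a : SpecialLinearGroup (Fin 2) (ZMod q)) : (a⁻¹) 1 0 = - a 1 0 := by
  rw [SpecialLinearGroup.SL2_inv_expl]; rfl

theorem inv_01 (a : SpecialLinearGroup (Fin 2) (ZMod q)) : (a⁻¹) 0 1 = - a 0 1 := by
  rw [SpecialLinearGroup.SL2_inv_expl]; rfl

theorem det2 (a : SpecialLinearGroup (Fin 2) (ZMod q)) (h : a 1 0 = 0) : a 0 0 * a 1 1 = 1 := by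
  have hdet : (a : Matrix (Fin 2) (Fin 2) (ZMod q)).det = 1 := a.2
  rw [Matrix.det_fin_two] at hdet
  have h2 : a 0 0 * a 1 1 - a 0 1 * a 1 0 = 1 := hdet
  rw [h, mul_zero, sub_zero] at h2
  exact h2

/-- the Borel subgroup with diagonal entries of order dividing `k` -/
def borelK (k : ℕ) : Subgroup (SpecialLinearGroup (Fin 2) (ZMod q)) where
  carrier := {g | g 1 0 = 0 ∧ (g 0 0) ^ k = 1}
  mul_mem' := by
    rintro a b ⟨ha1, ha2⟩ ⟨hb1, hb2⟩
    change (a * b) 1 0 = 0 ∧ ((a * b) 0 0) ^ k = 1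
    rw [mul_apply2, mul_apply2, ha1, hb1]
    constructor
    · ring
    · rw [mul_zero, add_zero, mul_pow, ha2, hb2, mul_one]
  one_mem' := by
    change (1 : SpecialLinearGroup (Fin 2) (ZMod q)) 1 0 = 0 ∧
      ((1 : SpecialLinearGroup (Fin 2) (ZMod q)) 0 0) ^ k = 1
    simp
  inv_mem' := by
    rintro a ⟨ha1, ha2⟩
    change (a⁻¹) 1 0 = 0 ∧ ((a⁻¹) 0 0) ^ k = 1
    rw [inv_10, inv_00, ha1, neg_zero]
    refine ⟨rfl, ?_⟩
    have h := congrArg (fun x => x ^ k) (det2 q a ha1)
    simp only [mul_pow, one_pow, ha2, one_mul] at h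
    exact h

/-- the diagonal subgroup with entries of order dividing `k` -/
def torusK (k : ℕ) : Subgroup (SpecialLinearGroup (Fin 2) (ZMod q)) where
  carrier := {g | g 1 0 = 0 ∧ g 0 1 = 0 ∧ (g 0 0) ^ k = 1}
  mul_mem' := by
    rintro a b ⟨ha1, ha2, ha3⟩ ⟨hb1, hb2, hb3⟩
    change (a * b) 1 0 = 0 ∧ (a * b) 0 1 = 0 ∧ ((a * b) 0 0) ^ k = 1
    rw [mul_apply2, mul_apply2, mul_apply2, ha1, hb1, ha2, hb2]
    refine ⟨by ring, by ring, ?_⟩
    rw [mul_zero, add_zero, mul_pow, ha3, hb3, mul_one]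
  one_mem' := by
    change (1 : SpecialLinearGroup (Fin 2) (ZMod q)) 1 0 = 0 ∧
      (1 : SpecialLinearGroup (Fin 2) (ZMod q)) 0 1 = 0 ∧
      ((1 : SpecialLinearGroup (Fin 2) (ZMod q)) 0 0) ^ k = 1
    simp
  inv_mem' := by
    rintro a ⟨ha1, ha2, ha3⟩
    change (a⁻¹) 1 0 = 0 ∧ (a⁻¹) 0 1 = 0 ∧ ((a⁻¹) 0 0) ^ k = 1
    rw [inv_10, inv_00, inv_01, ha1, ha2, neg_zero]
    refine ⟨rfl, rfl, ?_⟩
    have h := congrArg (fun x => x ^ k) (det2 q a ha1)
    simp only [mul_pow, one_pow, ha3, one_mul] at h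
    exact h

theorem torusK_le (k : ℕ) : torusK q k ≤ borelK q k := fun _ h => ⟨h.1, h.2.2⟩

theorem borelK_le {k l : ℕ} (h : k ∣ l) : borelK q k ≤ borelK q l := by
  rintro g ⟨h1, h2⟩
  refine ⟨h1, ?_⟩
  obtain ⟨c, rfl⟩ := h
  rw [pow_mul, h2, one_pow]

/-- the matrix `(u x; 0 u⁻¹)` -/
def upper (u : (ZMod q)ˣ) (x : ZMod q) : SpecialLinearGroup (Fin 2) (ZMod q) :=
  ⟨!![(u : ZMod q), x; 0, ((u⁻¹ : (ZMod q)ˣ) : ZMod q)], by
    rw [Matrix.det_fin_two_of, mul_zero, sub_zero, Units.mul_inv]⟩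

theorem upper_00 (u : (ZMod q)ˣ) (x : ZMod q) : (upper q u x) 0 0 = (u : ZMod q) := rfl
theorem upper_01 (u : (ZMod q)ˣ) (x : ZMod q) : (upper q u x) 0 1 = x := rfl
theorem upper_10 (u : (ZMod q)ˣ) (x : ZMod q) : (upper q u x) 1 0 = 0 := rfl
theorem upper_11 (u : (ZMod q)ˣ) (x : ZMod q) :
    (upper q u x) 1 1 = ((u⁻¹ : (ZMod q)ˣ) : ZMod q) := rfl

theorem ext2 (g h : SpecialLinearGroup (Fin 2) (ZMod q)) (h00 : g 0 0 = h 0 0)
    (h01 : g 0 1 = h 0 1) (h10 : g 1 0 = h 1 0) (h11 : g 1 1 = h 1 1) : g = h := by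
  apply Subtype.ext
  ext i j
  fin_cases i <;> fin_cases j
  · exact h00
  · exact h01
  · exact h10
  · exact h11

theorem mem_borelK_iff (k : ℕ) (g : SpecialLinearGroup (Fin 2) (ZMod q)) :
    g ∈ borelK q k ↔ g 1 0 = 0 ∧ (g 0 0) ^ k = 1 := Iff.rfl

theorem mem_torusK_iff (k : ℕ) (g : SpecialLinearGroup (Fin 2) (ZMod q)) :
    g ∈ torusK q k ↔ g 1 0 = 0 ∧ g 0 1 = 0 ∧ (g 0 0) ^ k = 1 := Iff.rfl

theorem card_borelK (k : ℕ) (hk : k ∣ q - 1) : Nat.card (borelK q k) = k * q := by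
  have hk0 : k ≠ 0 := by
    rintro rfl
    have := hq.out.two_le
    have h := Nat.eq_zero_of_zero_dvd hk
    omega
  have : NeZero k := ⟨hk0⟩
  -- the number of roots of unity
  have hroots : Nat.card (rootsOfUnity k (ZMod q)) = k := by
    obtain ⟨g, hg⟩ := IsCyclic.exists_generator (α := (ZMod q)ˣ)
    have hord : orderOf g = q - 1 := by
      rw [orderOf_eq_card_of_forall_mem_zpowers hg, Nat.card_eq_fintype_card, ZMod.card_units]
    obtain ⟨c, hc⟩ := hk
    have hc0 : c ≠ 0 := by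
      rintro rfl
      have := hq.out.two_le
      omega
    have hprim : IsPrimitiveRoot (g ^ c) k := by
      have h1 : IsPrimitiveRoot g (q - 1) := hord ▸ IsPrimitiveRoot.orderOf g
      exact h1.pow (by have := hq.out.two_le; omega) (by rw [hc]; ring)
    exact hprim.card_rootsOfUnity'
  have e : borelK q k ≃ rootsOfUnity k (ZMod q) × ZMod q :=
    { toFun := fun g => (⟨⟨g.1 0 0, g.1 1 1, det2 q g.1 g.2.1, by
          rw [mul_comm]
          exact det2 q g.1 g.2.1⟩, by
          rw [mem_rootsOfUnity']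
          exact g.2.2⟩, g.1 0 1)
      invFun := fun p => ⟨upper q p.1.1 p.2, by
        refine ⟨upper_10 q _ _, ?_⟩
        rw [upper_00]
        exact (mem_rootsOfUnity' _ _).mp p.1.2⟩
      left_inv := by
        intro g
        apply Subtype.ext
        exact ext2 q _ _ rfl rfl g.2.1.symm rfl
      right_inv := by
        rintro ⟨⟨u, hu⟩, x⟩
        refine Prod.ext ?_ rfl
        apply Subtype.ext
        apply Units.ext
        rfl }
  rw [Nat.card_congr e, Nat.card_prod, hroots, Nat.card_zmod]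

theorem card_torusK (k : ℕ) (hk : k ∣ q - 1) : Nat.card (torusK q k) = k := by
  have hk0 : k ≠ 0 := by
    rintro rfl
    have := hq.out.two_le
    have h := Nat.eq_zero_of_zero_dvd hk
    omega
  have : NeZero k := ⟨hk0⟩
  -- the number of roots of unity
  have hroots : Nat.card (rootsOfUnity k (ZMod q)) = k := by
    obtain ⟨g, hg⟩ := IsCyclic.exists_generator (α := (ZMod q)ˣ)
    have hord : orderOf g = q - 1 := by
      rw [orderOf_eq_card_of_forall_mem_zpowers hg, Nat.card_eq_fintype_card, ZMod.card_units]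
    obtain ⟨c, hc⟩ := hk
    have hprim : IsPrimitiveRoot (g ^ c) k := by
      have h1 : IsPrimitiveRoot g (q - 1) := hord ▸ IsPrimitiveRoot.orderOf g
      exact h1.pow (by have := hq.out.two_le; omega) (by rw [hc]; ring)
    exact hprim.card_rootsOfUnity'
  have e : torusK q k ≃ rootsOfUnity k (ZMod q) :=
    { toFun := fun g => ⟨⟨g.1 0 0, g.1 1 1, det2 q g.1 g.2.1, by
          rw [mul_comm]
          exact det2 q g.1 g.2.1⟩, by
          rw [mem_rootsOfUnity']
          exact g.2.2.2⟩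
      invFun := fun p => ⟨upper q p.1 0, by
        refine ⟨upper_10 q _ _, upper_01 q _ _, ?_⟩
        rw [upper_00]
        exact (mem_rootsOfUnity' _ _).mp p.2⟩
      left_inv := by
        intro g
        apply Subtype.ext
        exact ext2 q _ _ rfl g.2.2.1.symm g.2.1.symm rfl
      right_inv := by
        rintro ⟨u, hu⟩
        apply Subtype.ext
        apply Units.ext
        rfl }
  rw [Nat.card_congr e, hroots]

/-- the center is contained in all our subgroups with `k` even -/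
theorem center_le (k : ℕ) (hk : 2 ∣ k) :
    Subgroup.center (SpecialLinearGroup (Fin 2) (ZMod q)) ≤ torusK q k := by
  intro g hg
  rw [Matrix.SpecialLinearGroup.mem_center_iff] at hg
  obtain ⟨r, hr, hg⟩ := hg
  have h10 : g 1 0 = 0 := by rw [← hg]; simp
  have h01 : g 0 1 = 0 := by rw [← hg]; simp
  have h00 : g 0 0 = r := by rw [← hg]; simp
  refine ⟨h10, h01, ?_⟩
  rw [h00]
  obtain ⟨c, rfl⟩ := hk
  rw [pow_mul]
  rw [Fintype.card_fin] at hr
  rw [hr, one_pow]

theorem card_center (hq2 : q ≠ 2) :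
    Nat.card (Subgroup.center (SpecialLinearGroup (Fin 2) (ZMod q))) = 2 := by
  rw [Nat.card_congr (SpecialLinearGroup.center_equiv_rootsOfUnity' (R := ZMod q)
    (0 : Fin 2)).toEquiv, Fintype.card_fin]
  have hprim : IsPrimitiveRoot (-1 : ZMod q) 2 := by
    have : Fact (2 < q) := ⟨by have := hq.out.two_le; omega⟩
    exact IsPrimitiveRoot.neg_one q (by omega)
  exact hprim.card_rootsOfUnity

/-- the point `[1 : 0]` of the projective line -/
noncomputable def e1 : Projectivization (ZMod q) (Fin 2 → ZMod q) :=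
  Projectivization.mk (ZMod q) ![1, 0] (by simp)

theorem smul_e1_iff (g : SpecialLinearGroup (Fin 2) (ZMod q)) : g • (e1 q) = e1 q ↔ g 1 0 = 0 := by
  unfold e1
  rw [Projectivization.smul_mk, Projectivization.mk_eq_mk_iff']
  have h : ∀ i, (g • (![1, 0] : Fin 2 → ZMod q)) i = g i 0 := by
    intro i
    change ((g : Matrix (Fin 2) (Fin 2) (ZMod q)) *ᵥ ![1, 0]) i = g i 0
    simp [Matrix.mulVec, dotProduct, Fin.sum_univ_two]
  constructor
  · rintro ⟨a, ha⟩
    have h1 := congrFun ha 1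
    rw [h] at h1
    simpa using h1.symm
  · intro h0
    refine ⟨g 0 0, ?_⟩
    funext i
    rw [h]
    fin_cases i
    · simp
    · simp [h0]

theorem stabilizer_e1 :
    MulAction.stabilizer (SpecialLinearGroup (Fin 2) (ZMod q)) (e1 q) = borelK q (q - 1) := by
  ext g
  rw [MulAction.mem_stabilizer_iff, smul_e1_iff, mem_borelK_iff]
  constructor
  · intro h
    refine ⟨h, ?_⟩
    have h00 : g 0 0 ≠ 0 := by
      intro h0
      have := det2 q g h
      rw [h0, zero_mul] at this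
      exact zero_ne_one this
    exact ZMod.pow_card_sub_one_eq_one h00
  · exact fun h => h.1

theorem index_borel : (borelK q (q - 1)).index = q + 1 := by
  rw [← stabilizer_e1, MulAction.index_stabilizer_of_transitive,
    Projectivization.card_of_finrank_two, Nat.card_zmod]
  simp

/-- the projection to `PSL` -/
abbrev proj : SpecialLinearGroup (Fin 2) (ZMod q) →*
    ProjectiveSpecialLinearGroup (Fin 2) (ZMod q) :=
  QuotientGroup.mk' (Subgroup.center (SpecialLinearGroup (Fin 2) (ZMod q)))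

theorem card_map_proj (hq2 : q ≠ 2) (M : Subgroup (SpecialLinearGroup (Fin 2) (ZMod q)))
    (hM : Subgroup.center (SpecialLinearGroup (Fin 2) (ZMod q)) ≤ M) :
    2 * Nat.card (M.map (proj q)) = Nat.card M := by
  have h1 : (proj q).ker.relIndex M = Nat.card (M.map (proj q)) := Subgroup.relIndex_ker M (proj q)
  have h2 : (⊥ : Subgroup (SpecialLinearGroup (Fin 2) (ZMod q))).relIndex
        (Subgroup.center (SpecialLinearGroup (Fin 2) (ZMod q))) *
      (Subgroup.center (SpecialLinearGroup (Fin 2) (ZMod q))).relIndex M =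
      (⊥ : Subgroup (SpecialLinearGroup (Fin 2) (ZMod q))).relIndex M :=
    Subgroup.relIndex_mul_relIndex _ _ _ bot_le hM
  rw [Subgroup.relIndex_bot_left, Subgroup.relIndex_bot_left, card_center q hq2] at h2
  rw [← h1, QuotientGroup.ker_mk']
  exact h2

theorem index_map_borel : ((borelK q (q - 1)).map (proj q)).index = q + 1 := by
  rw [Subgroup.index_map_eq _ (QuotientGroup.mk'_surjective _), index_borel]
  rw [QuotientGroup.ker_mk']
  by_cases h2 : q = 2
  · -- the center is trivial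
    intro g hg
    rw [Matrix.SpecialLinearGroup.mem_center_iff] at hg
    obtain ⟨r, hr, hg⟩ := hg
    have h10 : g 1 0 = 0 := by rw [← hg]; simp
    have h00 : g 0 0 ≠ 0 := by
      intro h0
      have := det2 q g h10
      rw [h0, zero_mul] at this
      exact zero_ne_one this
    exact ⟨h10, ZMod.pow_card_sub_one_eq_one h00⟩
  · have hodd : Odd q := hq.out.odd_of_ne_two h2
    refine (center_le q (q - 1) ?_).trans (torusK_le q _)
    obtain ⟨c, hc⟩ := hodd
    exact ⟨c, by omega⟩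

/-- `PSL(2, q)` satisfies the conjecture when `q` and `(q + 1) / 2` are primes. -/
theorem psl_main (hp : ((q + 1) / 2).Prime) (a b : ℕ)
    (hab : a * b = Nat.card (ProjectiveSpecialLinearGroup (Fin 2) (ZMod q))) :
    Realised (ProjectiveSpecialLinearGroup (Fin 2) (ZMod q)) a b := by
  have h2 : q ≠ 2 := by
    rintro rfl
    norm_num at hp
  have hodd : Odd q := hq.out.odd_of_ne_two h2
  obtain ⟨c, hc⟩ := hodd
  have hqpos := hq.out.two_le
  have hc0 : 0 < c := by omega
  have hq1 : q - 1 = 2 * c := by omega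
  have hq2 : q + 1 = 2 * ((q + 1) / 2) := by omega
  have hcenter : ∀ k, 2 ∣ k → Subgroup.center (SpecialLinearGroup (Fin 2) (ZMod q)) ≤
      borelK q k := fun k hk => (center_le q k hk).trans (torusK_le q k)
  have hcardH : Nat.card ((borelK q (q - 1)).map (proj q)) = q * c := by
    have h := card_map_proj q h2 (borelK q (q - 1)) (hcenter _ ⟨c, hq1⟩)
    rw [card_borelK q (q - 1) dvd_rfl, hq1] at h
    have : 2 * Nat.card ((borelK q (2 * c)).map (proj q)) = 2 * (q * c) := by rw [h]; ring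
    rw [hq1]
    omega
  refine index_two_p_clt ((borelK q (q - 1)).map (proj q)) ((q + 1) / 2) hp
    (by rw [index_map_borel]; exact hq2) ?_ a b hab
  intro d hd
  rw [hcardH] at hd
  -- it suffices to find a subgroup of `SL` of order `2 d`
  have key : ∀ M : Subgroup (SpecialLinearGroup (Fin 2) (ZMod q)), M ≤ borelK q (q - 1) →
      Subgroup.center (SpecialLinearGroup (Fin 2) (ZMod q)) ≤ M → Nat.card M = 2 * d →
      ∃ K : Subgroup ((borelK q (q - 1)).map (proj q)), Nat.card K = d := by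
    intro M hM hcM hcard
    have h := card_map_proj q h2 M hcM
    rw [hcard] at h
    refine ⟨(M.map (proj q)).subgroupOf _, ?_⟩
    rw [Nat.card_congr (Subgroup.subgroupOfEquivOfLe (Subgroup.map_mono hM)).toEquiv]
    omega
  by_cases hqd : q ∣ d
  · obtain ⟨e, rfl⟩ := hqd
    have he : e ∣ c := Nat.dvd_of_mul_dvd_mul_left (by omega) hd
    have h2e : 2 * e ∣ q - 1 := by rw [hq1]; exact Nat.mul_dvd_mul_left 2 he
    refine key (borelK q (2 * e)) (borelK_le q h2e) (hcenter _ ⟨e, rfl⟩) ?_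
    rw [card_borelK q _ h2e]
    ring
  · have hcop : Nat.Coprime d q := ((Nat.Prime.coprime_iff_not_dvd hq.out).mpr hqd).symm
    have hd' : d ∣ c := hcop.dvd_of_dvd_mul_left hd
    have h2e : 2 * d ∣ q - 1 := by rw [hq1]; exact Nat.mul_dvd_mul_left 2 hd'
    refine key (torusK q (2 * d)) ((torusK_le q _).trans (borelK_le q h2e))
      (center_le q _ ⟨d, rfl⟩) ?_
    rw [card_torusK q _ h2e]

end Pool.Agent.Helper10.FG
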